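import Mathlib
import Pool.Agent.W66.LU

set_option autoImplicit false

/-!
# The Lenstra-Pomerance-Wagstaff law for random decimal digits in place of the digits of repunits

For a sequence `d` of decimal digits and a prime `p` let `W d p` be the `p`-rough part (the
product, with multiplicity, of the prime factors larger than `p`) of the number
`∑ i < p, d i * 10 ^ i` whose last `p` decimal digits are `d (p - 1), ..., d 1, d 0`.  For the
sequence of ones and `p ≠ 3` this is the repunit `R_p` itself.  Let `M d n` be the number of primes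
`p ≤ n` with `W d p` prime.  We prove that for almost every `d` (independent uniform digits) whose
last digit `d 0` is `1`, `3`, `7` or `9`, the limit of `M d n / log n` exists and equals
`e ^ γ / log 10`.
-/

namespace Pool.Agent.Results.MP_adea1b_nt.LowDigits

open Filter Topology MeasureTheory

/-- The product, with multiplicity, of the prime factors of `m` that are larger than `p`. -/
def roughPart (p m : ℕ) : ℕ := (m.primeFactorsList.filter (fun r => p < r)).prod

/-- The number with decimal digits `d (p - 1), ..., d 1, d 0` (last digit `d 0`). -/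
def low (d : ℕ → Fin 10) (p : ℕ) : ℕ := ∑ i ∈ Finset.range p, (d i : ℕ) * 10 ^ i

/-- The `p`-rough part of the number formed by the first `p` terms of the digit sequence `d`. -/
def W (d : ℕ → Fin 10) (p : ℕ) : ℕ := roughPart p (low d p)

/-- The number of primes `p ≤ n` for which `W d p` is prime. -/
def M (d : ℕ → Fin 10) (n : ℕ) : ℕ :=
  ((Finset.range (n + 1)).filter (fun p => p.Prime ∧ (W d p).Prime)).card

/-- For the sequence of ones `W` gives the repunits, and for almost every sequence of digits with
last digit coprime to `10` the asymptotic law holds. -/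
theorem result :
    (∀ p : ℕ, p.Prime → p ≠ 3 → W (fun _ => 1) p = ∑ i ∈ Finset.range p, 10 ^ i) ∧
    (∀ᵐ d : ℕ → Fin 10 ∂(Measure.infinitePi
        (fun _ : ℕ => ProbabilityTheory.uniformOn (Set.univ : Set (Fin 10)))),
      Nat.Coprime (d 0 : ℕ) 10 → Tendsto (fun n : ℕ => (M d n : ℝ) / Real.log n) atTop
        (𝓝 (Real.exp Real.eulerMascheroniConstant / Real.log 10))) := by
  refine ⟨fun p hp hp3 => ?_, ?_⟩
  · have h1 : low (fun _ => 1) p = ∑ i ∈ Finset.range p, 10 ^ i := by
      unfold low
      refine Finset.sum_congr rfl fun i _ => ?_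
      have : ((1 : Fin 10) : ℕ) = 1 := rfl
      rw [this, one_mul]
    have h2 : W (fun _ => 1) p =
        Pool.Agent.H305R2.roughPart p (low (fun _ => 1) p) := rfl
    rw [h2, h1]
    refine Pool.Agent.W66L.rough_repunit (by norm_num) hp ?_
    intro h
    have h9 : p ∣ 3 ^ 2 := by norm_num at h ⊢; exact h
    exact hp3 ((Nat.prime_dvd_prime_iff_eq hp Nat.prime_three).1 (hp.dvd_of_dvd_pow h9))
  · have h := Pool.Agent.W66L.law_all (b := 10) (μ := Pool.Agent.W66L.digitMeasure 10)
      (by norm_num) (Pool.Agent.W66L.full_digits 10)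
    have h' : ∀ᵐ d : ℕ → Fin 10 ∂(Measure.infinitePi
        (fun _ : ℕ => ProbabilityTheory.uniformOn (Set.univ : Set (Fin 10)))),
        (Pool.Agent.W66L.dsum 10 1 d).Coprime 10 →
          Tendsto (fun n : ℕ => (Pool.Agent.W66L.cntR
            (fun p => Pool.Agent.W66L.dsum 10 p d) n : ℝ) / Real.log n) atTop
            (𝓝 (Real.exp Real.eulerMascheroniConstant / Real.log ((10 : ℕ) : ℝ))) := h
    filter_upwards [h'] with d hd hu
    have hc : (Pool.Agent.W66L.dsum 10 1 d).Coprime 10 := by
      unfold Pool.Agent.W66L.dsum
      simpa using hu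
    have h3 := hd hc
    have e10 : ((10 : ℕ) : ℝ) = 10 := by norm_num
    rw [e10] at h3
    refine h3.congr fun n => ?_
    have h4 : Pool.Agent.W66L.cntR (fun p => Pool.Agent.W66L.dsum 10 p d) n = M d n := by
      unfold Pool.Agent.W66L.cntR M
      congr 1
      ext p
      simp only [Finset.mem_filter, Finset.mem_Icc, Finset.mem_range]
      constructor
      · rintro ⟨⟨h5, h6⟩, h7, h8⟩
        exact ⟨by omega, h7, h8⟩
      · rintro ⟨h6, h7, h8⟩
        exact ⟨⟨h7.pos, by omega⟩, h7, h8⟩
    rw [h4]

end Pool.Agent.Results.MP_adea1b_nt.LowDigits
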