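import Mathlib
import Pool.Agent.X10.AI.Int3

set_option autoImplicit false

/-!
# MP_adea1b_nt: prime prefixes of the digit expansions of a real number

For `β > 0` and a base `b ≥ 2` let `P b β n = ⌊β b ^ n⌋`, the integer formed by the integral part and
the first `n` digits of `β` in base `b`.  For `β = 1 / 9 = 0.111...` and `b = 10` this is the repunit
`R_n`.  We count the `n` for which `P b β n` itself is prime, over all lengths `n`.
-/

namespace Pool.Agent.Results.MP_adea1b_nt.PrimePrefixes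

open Filter Topology MeasureTheory Asymptotics

/-- the integer formed by the integral part and the first `n` digits of `β` in base `b` -/
noncomputable def P (b : ℕ) (β : ℝ) (n : ℕ) : ℕ := ⌊β * (b : ℝ) ^ n⌋₊

open Classical in
/-- the number of lengths `m` in `S` with `2 ≤ m ≤ n` for which `s m` is prime -/
noncomputable def M (s : ℕ → ℕ) (S : Set ℕ) (n : ℕ) : ℕ :=
  ((Finset.Icc 2 n).filter (fun m => m ∈ S ∧ (s m).Prime)).card

open Classical in
/-- the sum of `1 / m` over the `m` in `S` with `2 ≤ m ≤ n` -/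
noncomputable def V (S : Set ℕ) (n : ℕ) : ℝ :=
  ∑ m ∈ (Finset.Icc 2 n).filter (fun m => m ∈ S), 1 / (m : ℝ)

/-- The law with constant `κ` for the prime values of the sequence `s` of integers. -/
structure Law (s : ℕ → ℕ) (κ : ℝ) (S : Set ℕ) : Prop where
  /-- the number of all `m ≤ n` with `s m` prime -/
  all : (fun n : ℕ => (M s Set.univ n : ℝ) - κ * Real.log n) =O[atTop]
    (fun n : ℕ => Real.sqrt (Real.log n) * (Real.log (Real.log n)) ^ ((5 : ℝ) / 2))
  /-- the number of `m ≤ n` in `S` with `s m` prime -/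
  sets : Tendsto (V S) atTop atTop → (fun n : ℕ => (M s S n : ℝ) - κ * V S n) =O[atTop]
    (fun n : ℕ => Real.sqrt (V S n * Real.log (Real.log n)) *
      (Real.log (V S n * Real.log (Real.log n))) ^ 2)
  /-- there are infinitely many in `S` if and only if the sum of the reciprocals is infinite -/
  dichotomy : {m : ℕ | m ∈ S ∧ (s m).Prime}.Infinite ↔ Tendsto (V S) atTop atTop

lemma V_eq (S : Set ℕ) : V S = Pool.Agent.X10.AI.VS S := by
  funext n
  unfold V Pool.Agent.X10.AI.VS Pool.Agent.X10.AI.wt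
  rw [← Finset.sum_filter]
  refine Finset.sum_congr ?_ fun _ _ => rfl
  ext q
  simp only [Finset.mem_filter, Finset.mem_Icc, Finset.mem_range]
  constructor
  · rintro ⟨⟨h1, h2⟩, h3⟩
    exact ⟨by omega, h3, h1⟩
  · rintro ⟨h1, h2, h3⟩
    exact ⟨⟨h3, by omega⟩, h2⟩

lemma M_eq (s : ℕ → ℕ) (S : Set ℕ) (n : ℕ) : M s S n = Pool.Agent.X10.AI.cS S s n := by
  unfold M Pool.Agent.X10.AI.cS
  congr 1
  ext q
  simp only [Finset.mem_filter, Finset.mem_Icc, Finset.mem_range]
  constructor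
  · rintro ⟨⟨h1, h2⟩, h3, h4⟩
    exact ⟨by omega, h1, h3, h4⟩
  · rintro ⟨h1, h2, h3, h4⟩
    exact ⟨⟨h2, by omega⟩, h3, h4⟩

lemma law_of {s : ℕ → ℕ} {κ : ℝ} {S : Set ℕ}
    (h1 : Pool.Agent.X10.AI.Pt s κ Set.univ) (h2 : Pool.Agent.X10.AI.Pt s κ S) : Law s κ S := by
  refine ⟨?_, fun hS => ?_, ?_⟩
  · obtain ⟨B, hB, h⟩ := h1.law Pool.Agent.X10.AI.VS_univ_tendsto
    simp only [M_eq]
    exact Pool.Agent.X10.AI.bigO_all hB h
  · rw [V_eq] at hS ⊢
    obtain ⟨B, hB, h⟩ := h2.law hS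
    simp only [M_eq]
    exact Pool.Agent.TH888.R.bigO_set hB hS h
  · rw [V_eq]
    constructor
    · intro hi
      by_contra hn
      refine hi (((h2.fin hn).union (Set.finite_lt_nat 2)).subset fun m hm => ?_)
      by_cases h : 2 ≤ m
      · exact Or.inl ⟨h, hm⟩
      · exact Or.inr (by show m < 2; omega)
    · intro hS
      exact (h2.inf hS).mono fun m hm => hm.2

lemma repunit {b : ℕ} (hb : 3 ≤ b) (n : ℕ) :
    P b (1 / ((b : ℝ) - 1)) n = ∑ i ∈ Finset.range n, b ^ i := by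
  have hb1 : (3 : ℝ) ≤ b := by exact_mod_cast hb
  have hgeo : (∑ i ∈ Finset.range n, (b : ℝ) ^ i) * ((b : ℝ) - 1) = (b : ℝ) ^ n - 1 :=
    geom_sum_mul (b : ℝ) n
  have e : 1 / ((b : ℝ) - 1) * (b : ℝ) ^ n =
      ((∑ i ∈ Finset.range n, b ^ i : ℕ) : ℝ) + 1 / ((b : ℝ) - 1) := by
    have h1 : (b : ℝ) - 1 ≠ 0 := by linarith
    push_cast
    field_simp
    linarith
  have h0 : 0 ≤ 1 / ((b : ℝ) - 1) := by
    apply div_nonneg zero_le_one
    linarith
  unfold P
  rw [e, Nat.floor_eq_iff (add_nonneg (Nat.cast_nonneg _) h0)]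
  constructor
  · linarith
  · have : 1 / ((b : ℝ) - 1) < 1 := by
      rw [div_lt_one (by linarith)]
      linarith
    linarith

/-- (1) `P b (1 / (b - 1)) n` is the repunit of length `n` in base `b ≥ 3`.  (2) For every set `S` of
lengths and almost every `β > 0`, the law holds for `P b β` with constant `1 / log b` in all bases
`b ≥ 2`.  (3) For every `W : ℕ → ℕ` with `∑ W m / m ^ 2 < ∞` and almost every `β > 0`, in all bases
`b ≥ 2`: for all large `m` there is no `n` with `m < n ≤ m + W m` and `P b β m`, `P b β n` both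
prime. -/
theorem result :
    (∀ b n : ℕ, 3 ≤ b → P b (1 / ((b : ℝ) - 1)) n = ∑ i ∈ Finset.range n, b ^ i) ∧
    (∀ S : Set ℕ, ∀ᵐ β : ℝ, 0 < β → ∀ b : ℕ, 2 ≤ b → Law (P b β) (1 / Real.log b) S) ∧
    ∀ W : ℕ → ℕ, Summable (fun m : ℕ => (W m : ℝ) / (m : ℝ) ^ 2) →
      ∀ᵐ β : ℝ, 0 < β → ∀ b : ℕ, 2 ≤ b → ∀ᶠ m : ℕ in atTop, ∀ n : ℕ, m < n → n ≤ m + W m →
        ¬ ((P b β m).Prime ∧ (P b β n).Prime) := by
  refine ⟨fun b n hb => repunit hb n, fun S => ?_, fun W hW => ?_⟩
  · have h : ∀ᵐ β : ℝ, ∀ b : ℕ, 2 ≤ b → 0 < β → Law (P b β) (1 / Real.log b) S := by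
      rw [ae_all_iff]
      intro b
      by_cases hb : 2 ≤ b
      · filter_upwards [Pool.Agent.X10.AI.law_int hb 0 Set.univ,
          Pool.Agent.X10.AI.law_int hb 0 S] with β h1 h2 _ h0
        exact law_of (h1 h0) (h2 h0)
      · exact Eventually.of_forall fun β h => absurd h hb
    filter_upwards [h] with β hβ h0 b hb
    exact hβ b hb h0
  · have h : ∀ᵐ β : ℝ, ∀ b : ℕ, 2 ≤ b → 0 < β → ∀ᶠ m : ℕ in atTop, ∀ n : ℕ, m < n →
        n ≤ m + W m → ¬ ((P b β m).Prime ∧ (P b β n).Prime) := by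
      rw [ae_all_iff]
      intro b
      by_cases hb : 2 ≤ b
      · filter_upwards [Pool.Agent.X10.AI.spacing_int hb 0 W hW] with β h1 _ h0
        exact h1 h0
      · exact Eventually.of_forall fun β h => absurd h hb
    filter_upwards [h] with β hβ h0 b hb
    exact hβ b hb h0

end Pool.Agent.Results.MP_adea1b_nt.PrimePrefixes
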