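import Mathlib
import Pool.Agent.X191.CP.TwoB
import Pool.Agent.W66.ST

set_option autoImplicit false

/-!
# The first `p` digits of almost every real number in two bases

For real `α > 1`, `β > 0` and a prime `p` let `W α β p` be the `p`-rough part (the product, with
multiplicity, of the prime factors larger than `p`) of the largest integer below `β * α ^ p`.  For an
integer base `α` this is the integer formed by the integral part and the first `p` digits of `β` in
the base `α` (non-terminating expansion), and `W 10 (1 / 9) p` is the repunit `R_p` itself, for every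
prime `p ≠ 3`.  We call `p` an exponent of `β` in the base `α` if `W α β p` is prime; in each integer
base almost every `β` has infinitely many exponents (starting results).

We prove that different bases do not share them: for almost every `β > 0` and all integer bases
`a ≠ b` only finitely many primes are exponents of `β` in both bases, and for every `ε > 0` there are
only finitely many pairs `p ≤ q ≤ p + p / (log p) ^ (1 + ε)` of an exponent `p` in the base `a` and an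
exponent `q` in the base `b`.  More generally let `α, γ > 1` be real and `δ > 0`, and let `S` be a set
of pairs of primes `(p, q)` with `q log γ - p log α ≥ δ max (p, q)` and with a finite sum of
`(log p / p) (log q / q)`; then for almost every `β` only finitely many `(p, q)` in `S` are such that
`p` is an exponent in the base `α` and `q` an exponent in the base `γ`.

Proof: the larger number is conditioned on the smaller one, which leaves an interval of relative
length `exp (-p log α)`; on it the number of integers with a prime `q`-rough part is bounded by the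
Brun-Titchmarsh inequality (`Pool.Agent.H447R2.ML.short_interval`, starting library).
-/

namespace Pool.Agent.Results.MP_adea1b_nt.TwoBases

open Filter Topology MeasureTheory

/-- The product, with multiplicity, of the prime factors of `m` that are larger than `p`. -/
def roughPart (p m : ℕ) : ℕ := (m.primeFactorsList.filter (fun r => p < r)).prod

/-- The `p`-rough part of the largest integer below `β * α ^ p`. -/
noncomputable def W (α β : ℝ) (p : ℕ) : ℕ := roughPart p (⌈β * α ^ p⌉₊ - 1)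

/-- `p` is a prime and `W α β p` is prime. -/
def Hit (α β : ℝ) (p : ℕ) : Prop := p.Prime ∧ (W α β p).Prime

open Pool.Agent.X191.CP
open Pool.Agent.H305R2 (ff NN)

lemma ff_eq {α : ℝ} (hα : 0 < α) (t : ℝ) (p : ℕ) (h : (W α (Real.exp t) p).Prime) :
    ff p (Real.log α * p + t) = 1 := by
  have e2 : Real.exp (Real.log α * p + t) = Real.exp t * α ^ p := by
    rw [Real.exp_add, mul_comm (Real.log α), Real.exp_nat_mul, Real.exp_log hα]
    ring
  unfold ff NN
  rw [e2]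
  exact if_pos h

/-- the criterion -/
lemma main {α γ δ : ℝ} (hα : 1 < α) (hγ : 1 < γ) (hδ : 0 < δ) {S : Set (ℕ × ℕ)}
    (hS : ∀ x ∈ S, x.1.Prime ∧ x.2.Prime ∧
      δ * max (x.1 : ℝ) x.2 ≤ Real.log γ * x.2 - Real.log α * x.1)
    (hsum : Summable (S.indicator (fun x : ℕ × ℕ => w x.1 * w x.2))) :
    ∀ᵐ β : ℝ, 0 < β → {x | x ∈ S ∧ Hit α β x.1 ∧ Hit γ β x.2}.Finite := by
  refine Pool.Agent.W66S.ae_of_exp (P := fun β : ℝ =>
    {x | x ∈ S ∧ Hit α β x.1 ∧ Hit γ β x.2}.Finite) ?_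
  filter_upwards [two_ae hα hγ hδ (fun x hx => ⟨(hS x hx).1.two_le, (hS x hx).2.2⟩) hsum] with t ht
  refine ht.subset ?_
  rintro x ⟨hx, h1, h2⟩
  refine ⟨hx, ?_⟩
  rw [ff_eq (by linarith) t _ h1.2, ff_eq (by linarith) t _ h2.2, one_mul]

lemma w_sq : Summable (fun p : ℕ => w p * w p) := by
  have hlog : ∀ᶠ p : ℕ in atTop, ‖w p * w p‖ ≤ 1 / (p : ℝ) ^ (3 / 2 : ℝ) := by
    have := (isLittleO_log_rpow_rpow_atTop 2 (show (0 : ℝ) < 1 / 2 by norm_num)).bound
      (show (0 : ℝ) < 1 by norm_num)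
    have h2 := (tendsto_natCast_atTop_atTop (R := ℝ)).eventually this
    filter_upwards [h2, eventually_ge_atTop 1] with p h2 hp
    have hp1 : (1 : ℝ) ≤ p := by exact_mod_cast hp
    rw [Real.norm_of_nonneg (mul_nonneg (w_nonneg _) (w_nonneg _))]
    rw [Real.norm_of_nonneg (Real.rpow_nonneg (Real.log_nonneg hp1) _),
      Real.norm_of_nonneg (Real.rpow_nonneg (by linarith) _), one_mul, Real.rpow_two] at h2
    unfold w
    have e : (p : ℝ) ^ (3 / 2 : ℝ) * (p : ℝ) ^ (1 / 2 : ℝ) = p * p := by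
      rw [← Real.rpow_add (by linarith)]
      norm_num
      rw [sq]
    rw [div_mul_div_comm, div_le_div_iff₀ (by positivity) (by positivity), one_mul, ← e]
    have h3 : (0 : ℝ) ≤ (p : ℝ) ^ (3 / 2 : ℝ) := by positivity
    nlinarith
  exact Summable.of_norm_bounded_eventually_nat (Real.summable_one_div_nat_rpow.2 (by norm_num)) hlog

lemma diag_sum : Summable (({x : ℕ × ℕ | x.1 = x.2}).indicator
    (fun x : ℕ × ℕ => w x.1 * w x.2)) := by
  refine summable_pairs (g := fun p => w p * w p) (fun x => ?_) (fun p => ?_) w_sq ?_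
  · exact Set.indicator_nonneg (fun x _ => mul_nonneg (w_nonneg _) (w_nonneg _)) x
  · refine (Set.finite_singleton p).subset fun q hq => ?_
    have h := Set.mem_of_indicator_ne_zero (s := {x : ℕ × ℕ | x.1 = x.2}) (a := (p, q)) hq
    exact (show p = q from h).symm
  · refine Eventually.of_forall fun p => ?_
    have hs : ∀ q : ℕ, q ≠ p → ({x : ℕ × ℕ | x.1 = x.2}).indicator
        (fun x : ℕ × ℕ => w x.1 * w x.2) (p, q) = 0 := by
      intro q hq
      exact Set.indicator_of_notMem (s := {x : ℕ × ℕ | x.1 = x.2}) (a := (p, q))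
        (fun h => hq (show p = q from h).symm) _
    rw [tsum_eq_single p hs]
    exact Set.indicator_le_self' (fun x _ => mul_nonneg (w_nonneg _) (w_nonneg _)) _

/-- the sum over close pairs, the diagonal included -/
lemma close_sum {ε : ℝ} (hε : 0 < ε) :
    Summable (({x : ℕ × ℕ | x.1.Prime ∧ x.2.Prime ∧ x.1 ≤ x.2 ∧ (x.2 : ℝ) ≤ x.1 + wid ε x.1}).indicator
      (fun x : ℕ × ℕ => w x.1 * w x.2)) := by
  classical
  refine Summable.of_nonneg_of_le (fun x => ?_) (fun x => ?_) ((pair_sum hε).add diag_sum)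
  · exact Set.indicator_nonneg (fun x _ => mul_nonneg (w_nonneg _) (w_nonneg _)) x
  · have hww : 0 ≤ w x.1 * w x.2 := mul_nonneg (w_nonneg _) (w_nonneg _)
    rw [Set.indicator_apply]
    by_cases hx : x.1.Prime ∧ x.2.Prime ∧ x.1 ≤ x.2 ∧ (x.2 : ℝ) ≤ x.1 + wid ε x.1
    · rw [if_pos (show x ∈ {x : ℕ × ℕ | x.1.Prime ∧ x.2.Prime ∧ x.1 ≤ x.2 ∧
        (x.2 : ℝ) ≤ x.1 + wid ε x.1} from hx)]
      rcases hx.2.2.1.eq_or_lt with h | h
      · rw [Set.indicator_of_mem (show x ∈ {x : ℕ × ℕ | x.1 = x.2} from h)]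
        have : (0 : ℝ) ≤ if x.1.Prime ∧ x.2.Prime ∧ x.1 < x.2 ∧ (x.2 : ℝ) ≤ x.1 + wid ε x.1 then
            w x.1 * w x.2 else 0 := by split_ifs <;> first | exact hww | exact le_rfl
        linarith
      · rw [if_pos ⟨hx.1, hx.2.1, h, hx.2.2.2⟩]
        have := Set.indicator_nonneg (s := {x : ℕ × ℕ | x.1 = x.2})
          (f := fun x : ℕ × ℕ => w x.1 * w x.2)
          (fun x _ => mul_nonneg (w_nonneg _) (w_nonneg _)) x
        linarith
    · rw [if_neg (show x ∉ {x : ℕ × ℕ | x.1.Prime ∧ x.2.Prime ∧ x.1 ≤ x.2 ∧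
        (x.2 : ℝ) ≤ x.1 + wid ε x.1} from hx)]
      refine add_nonneg ?_ (Set.indicator_nonneg (fun x _ => mul_nonneg (w_nonneg _) (w_nonneg _)) x)
      split_ifs
      · exact hww
      · exact le_rfl

lemma swap_sum {S : Set (ℕ × ℕ)} (h : Summable (S.indicator (fun x : ℕ × ℕ => w x.1 * w x.2))) :
    Summable ((Prod.swap ⁻¹' S).indicator (fun x : ℕ × ℕ => w x.1 * w x.2)) := by
  have h1 := (Equiv.prodComm ℕ ℕ).summable_iff.2 h
  refine h1.congr fun x => ?_
  simp only [Function.comp, Equiv.prodComm_apply]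
  by_cases hx : x ∈ Prod.swap ⁻¹' S
  · rw [Set.indicator_of_mem (show x.swap ∈ S from hx), Set.indicator_of_mem hx]
    simp only [Prod.fst_swap, Prod.snd_swap]
    ring
  · rw [Set.indicator_of_notMem (show x.swap ∉ S from hx), Set.indicator_of_notMem hx]

lemma sub_sum {S T : Set (ℕ × ℕ)} (hST : S ⊆ T)
    (h : Summable (T.indicator (fun x : ℕ × ℕ => w x.1 * w x.2))) :
    Summable (S.indicator (fun x : ℕ × ℕ => w x.1 * w x.2)) :=
  Summable.of_nonneg_of_le
    (fun x => Set.indicator_nonneg (fun x _ => mul_nonneg (w_nonneg _) (w_nonneg _)) x)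
    (fun x => Set.indicator_le_indicator_of_subset hST
      (fun x => mul_nonneg (w_nonneg _) (w_nonneg _)) x) h

lemma eventually_of_finite {T : Set (ℕ × ℕ)} (hT : T.Finite) :
    ∀ᶠ p : ℕ in atTop, ∀ q : ℕ, (p, q) ∉ T := by
  have h1 : (Prod.fst '' T).Finite := hT.image _
  obtain ⟨M, hM⟩ := h1.bddAbove
  filter_upwards [eventually_gt_atTop M] with p hp q hq
  have := hM ⟨(p, q), hq, rfl⟩
  simp only at this
  omega

lemma eventually_of_finite' {T : Set (ℕ × ℕ)} (hT : T.Finite) :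
    ∀ᶠ p : ℕ in atTop, ∀ q : ℕ, p ≤ q → (q, p) ∉ T := by
  have h1 : (Prod.fst '' T).Finite := hT.image _
  obtain ⟨M, hM⟩ := h1.bddAbove
  filter_upwards [eventually_gt_atTop M] with p hp q hpq hq
  have := hM ⟨(q, p), hq, rfl⟩
  simp only at this
  omega

/-- close pairs, `α < γ` -/
lemma close_lt {α γ : ℝ} (hα : 1 < α) (hlt : α < γ) {ε : ℝ} (hε : 0 < ε) : ∀ᵐ β : ℝ, 0 < β →
    ∀ᶠ p : ℕ in atTop, ∀ q : ℕ, p ≤ q → (q : ℝ) ≤ p + p / Real.log p ^ (1 + ε) →
      ¬ (Hit α β p ∧ Hit γ β q) ∧ ¬ (Hit γ β p ∧ Hit α β q) := by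
  have hγ : 1 < γ := hα.trans hlt
  have hla : 0 < Real.log α := Real.log_pos hα
  have hlg : 0 < Real.log γ := Real.log_pos hγ
  have hd : 0 < Real.log γ - Real.log α := sub_pos.2 (Real.log_lt_log (by linarith) hlt)
  set T : Set (ℕ × ℕ) := {x | x.1.Prime ∧ x.2.Prime ∧ x.1 ≤ x.2 ∧ (x.2 : ℝ) ≤ x.1 + wid ε x.1} with hT
  have hTs := close_sum hε
  set d := Real.log γ - Real.log α with hdd
  -- `α` at the smaller level
  have h1 := main (S := T) hα hγ hd (fun x hx => ⟨hx.1, hx.2.1, by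
    have hle : (x.1 : ℝ) ≤ x.2 := by exact_mod_cast hx.2.2.1
    rw [max_eq_right hle, hdd]
    nlinarith⟩) hTs
  -- `γ` at the smaller level
  set T' : Set (ℕ × ℕ) := {x | x.swap ∈ T ∧
    (d / 4) * max (x.1 : ℝ) x.2 ≤ Real.log γ * x.2 - Real.log α * x.1} with hT'
  have h2 := main (S := T') hα hγ (show 0 < d / 4 by linarith)
    (fun x hx => ⟨hx.1.2.1, hx.1.1, hx.2⟩)
    (sub_sum (T := Prod.swap ⁻¹' T) (fun x hx => hx.1) (swap_sum hTs))
  have hlog : Tendsto (fun p : ℕ => Real.log (p : ℝ)) atTop atTop :=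
    Real.tendsto_log_atTop.comp tendsto_natCast_atTop_atTop
  have hsm : ∀ᶠ p : ℕ in atTop, Real.log α * wid ε p + (d / 4) * wid ε p ≤ (d / 2) * p := by
    have h3 : Tendsto (fun p : ℕ => Real.log (p : ℝ) ^ (1 + ε)) atTop atTop :=
      (tendsto_rpow_atTop (by linarith)).comp hlog
    filter_upwards [h3.eventually_ge_atTop ((Real.log α + d / 4) / (d / 2)),
      hlog.eventually_gt_atTop 0] with p hp hl
    have hr : 0 < Real.log p ^ (1 + ε) := Real.rpow_pos_of_pos hl _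
    rw [div_le_iff₀ (by positivity)] at hp
    unfold wid
    rw [← add_mul, mul_div_assoc', div_le_iff₀ hr]
    have hp0 : (0 : ℝ) ≤ p := Nat.cast_nonneg p
    nlinarith
  filter_upwards [h1, h2] with β h1 h2 hβ
  filter_upwards [eventually_of_finite (h1 hβ), eventually_of_finite' (h2 hβ), hsm] with p g1 g2 g3 q
    hpq hle
  constructor
  · rintro ⟨e1, e2⟩
    exact g1 q ⟨⟨e1.1, e2.1, hpq, hle⟩, e1, e2⟩
  · rintro ⟨e1, e2⟩
    refine g2 q hpq ⟨⟨⟨e1.1, e2.1, hpq, hle⟩, ?_⟩, e2, e1⟩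
    simp only
    have hpq' : (p : ℝ) ≤ q := by exact_mod_cast hpq
    rw [max_eq_left hpq']
    have hle' : (q : ℝ) ≤ p + wid ε p := hle
    have h5 : Real.log α * q ≤ Real.log α * (p + wid ε p) := mul_le_mul_of_nonneg_left hle' hla.le
    have h6 : d / 4 * q ≤ d / 4 * (p + wid ε p) := mul_le_mul_of_nonneg_left hle' (by linarith)
    have hp0 : (0 : ℝ) ≤ p := Nat.cast_nonneg p
    have h7 : Real.log γ * p = Real.log α * p + d * p := by rw [hdd]; ring
    nlinarith

lemma close_ne {α γ : ℝ} (hα : 1 < α) (hγ : 1 < γ) (hne : α ≠ γ) {ε : ℝ} (hε : 0 < ε) :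
    ∀ᵐ β : ℝ, 0 < β → ∀ᶠ p : ℕ in atTop, ∀ q : ℕ, p ≤ q →
      (q : ℝ) ≤ p + p / Real.log p ^ (1 + ε) → ¬ (Hit α β p ∧ Hit γ β q) := by
  rcases lt_or_gt_of_ne hne with h | h
  · filter_upwards [close_lt hα h hε] with β hβ h0
    filter_upwards [hβ h0] with p hp q h1 h2
    exact (hp q h1 h2).1
  · filter_upwards [close_lt hγ h hε] with β hβ h0
    filter_upwards [hβ h0] with p hp q h1 h2
    exact (hp q h1 h2).2

lemma wid_anti {ε δ : ℝ} (h : δ ≤ ε) {p : ℕ} (hp : 1 ≤ Real.log p) :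
    (p : ℝ) / Real.log p ^ (1 + ε) ≤ p / Real.log p ^ (1 + δ) := by
  refine div_le_div_of_nonneg_left (Nat.cast_nonneg _) (Real.rpow_pos_of_pos (by linarith) _) ?_
  exact Real.rpow_le_rpow_of_exponent_le hp (by linarith)

/-- close pairs, all `ε` -/
lemma close_all {α γ : ℝ} (hα : 1 < α) (hγ : 1 < γ) (hne : α ≠ γ) :
    ∀ᵐ β : ℝ, 0 < β → ∀ ε : ℝ, 0 < ε → ∀ᶠ p : ℕ in atTop, ∀ q : ℕ, p ≤ q →
      (q : ℝ) ≤ p + p / Real.log p ^ (1 + ε) → ¬ (Hit α β p ∧ Hit γ β q) := by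
  have h := ae_all_iff.2 fun n : ℕ => close_ne hα hγ hne (show (0 : ℝ) < 1 / ((n : ℝ) + 1) by positivity)
  filter_upwards [h] with x h hx ε hε
  obtain ⟨n, hn⟩ := exists_nat_one_div_lt hε
  have hlog : Tendsto (fun p : ℕ => Real.log (p : ℝ)) atTop atTop :=
    Real.tendsto_log_atTop.comp tendsto_natCast_atTop_atTop
  filter_upwards [h n hx, hlog.eventually_ge_atTop 1] with p hp hl q hpq hle
  exact hp q hpq (hle.trans (by linarith [wid_anti hn.le hl]))

/-- the repunits -/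
lemma repunit {p : ℕ} (hp : p.Prime) (h3 : p ≠ 3) :
    W 10 (1 / 9) p = ∑ i ∈ Finset.range p, 10 ^ i := by
  have h := Pool.Agent.W66S.repunit_special (b := 10) (by norm_num) hp (by
    intro h
    have h9 : p ∣ 3 ^ 2 := by simpa using h
    exact h3 ((Nat.prime_dvd_prime_iff_eq hp Nat.prime_three).1 (hp.dvd_of_dvd_pow h9)))
  have e1 : ⌈(1 / (((10 : ℕ) : ℝ) - 1)) * ((10 : ℕ) : ℝ) ^ p⌉₊ = ⌈(1 / 9 : ℝ) * (10 : ℝ) ^ p⌉₊ := by
    congr 1
    push_cast
    norm_num
  rw [e1] at h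
  exact h

theorem result :
    (∀ p : ℕ, p.Prime → p ≠ 3 → W 10 (1 / 9) p = ∑ i ∈ Finset.range p, 10 ^ i) ∧
    -- all integer bases, common exponents
    (∀ᵐ β : ℝ, 0 < β → ∀ a b : ℕ, 2 ≤ a → 2 ≤ b → a ≠ b →
      {p : ℕ | Hit a β p ∧ Hit b β p}.Finite) ∧
    -- all integer bases, close pairs
    (∀ᵐ β : ℝ, 0 < β → ∀ a b : ℕ, 2 ≤ a → 2 ≤ b → a ≠ b → ∀ ε : ℝ, 0 < ε →
      ∀ᶠ p : ℕ in atTop, ∀ q : ℕ, p ≤ q → (q : ℝ) ≤ p + p / Real.log p ^ (1 + ε) →
        ¬ (Hit a β p ∧ Hit b β q)) ∧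
    -- real bases and sets of pairs
    (∀ α γ δ : ℝ, 1 < α → 1 < γ → 0 < δ → ∀ S : Set (ℕ × ℕ),
      (∀ x ∈ S, x.1.Prime ∧ x.2.Prime ∧
        δ * max (x.1 : ℝ) x.2 ≤ Real.log γ * x.2 - Real.log α * x.1) →
      Summable (fun x : ℕ × ℕ => S.indicator
        (fun x : ℕ × ℕ => Real.log x.1 / x.1 * (Real.log x.2 / x.2)) x) →
      ∀ᵐ β : ℝ, 0 < β → {x | x ∈ S ∧ Hit α β x.1 ∧ Hit γ β x.2}.Finite) := by
  have hcl : ∀ᵐ β : ℝ, 0 < β → ∀ a b : ℕ, 2 ≤ a → 2 ≤ b → a ≠ b → ∀ ε : ℝ, 0 < ε →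
      ∀ᶠ p : ℕ in atTop, ∀ q : ℕ, p ≤ q → (q : ℝ) ≤ p + p / Real.log p ^ (1 + ε) →
        ¬ (Hit a β p ∧ Hit b β q) := by
    have h : ∀ a b : ℕ, ∀ᵐ β : ℝ, 2 ≤ a → 2 ≤ b → a ≠ b → 0 < β → ∀ ε : ℝ, 0 < ε →
        ∀ᶠ p : ℕ in atTop, ∀ q : ℕ, p ≤ q → (q : ℝ) ≤ p + p / Real.log p ^ (1 + ε) →
        ¬ (Hit a β p ∧ Hit b β q) := by
      intro a b
      by_cases hc : 2 ≤ a ∧ 2 ≤ b ∧ a ≠ b
      · have ha : (1 : ℝ) < a := by exact_mod_cast (by omega : 1 < a)
        have hb : (1 : ℝ) < b := by exact_mod_cast (by omega : 1 < b)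
        filter_upwards [close_all ha hb (by exact_mod_cast hc.2.2)] with β hβ _ _ _
        exact hβ
      · exact Eventually.of_forall fun β h1 h2 h3 => absurd ⟨h1, h2, h3⟩ hc
    filter_upwards [ae_all_iff.2 fun a => ae_all_iff.2 (h a)] with β hβ h0 a b ha hb hne
    exact hβ a b ha hb hne h0
  refine ⟨fun p hp h3 => repunit hp h3, ?_, hcl, fun α γ δ hα hγ hδ S hS hsum =>
    main hα hγ hδ hS hsum⟩
  filter_upwards [hcl] with β hβ h0 a b ha hb hne
  obtain ⟨M, hM⟩ := eventually_atTop.1 (hβ h0 a b ha hb hne 1 one_pos)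
  refine (Set.finite_Iio (M + 3)).subset fun p hp => ?_
  by_contra hle
  have hp3 : M + 3 ≤ p := not_lt.1 hle
  refine hM p (by omega) p le_rfl ?_ hp
  have hl : 0 ≤ Real.log p := Real.log_natCast_nonneg p
  have : 0 ≤ (p : ℝ) / Real.log p ^ ((1 : ℝ) + 1) := div_nonneg (Nat.cast_nonneg p) (Real.rpow_nonneg hl _)
  linarith

end Pool.Agent.Results.MP_adea1b_nt.TwoBases
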